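import Pool.Agent.Helper94.CPB.OneSection
import Pool.Agent.Helper29.CPB.Main

/-!
# The sign conjecture for one hyperplane section of `X × X` is the Lefschetz standard conjecture

The definitions (`Variety`, `SelfProduct`, `GenericSection`, `Incidence`, `CPlus`, `Kunneth`,
`Lefschetz`, ...) are in `Pool.Agent.Helper29.CPB.Statement`.

Idea of the proof. Let `S` be the generic complete intersection of odd codimension `s = 2c - 1` in
`Z = X × X`. All algebraic self-correspondences of `S` come from `Z` and the diagonal, hence `C⁺(S)`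
gives an algebraic operator `γ` on `Z` with `L^s γ L^s = L^s π⁺`. Let `a` be an algebraic
self-correspondence of `X` such that `L^c a` is numerically trivial. Then
`t = γ L^s γ (L ⊗ 1 + 1 ⊗ L)^s (a ⊗ a)` is numerically trivial, because `s = 2c - 1`, and even, hence
nilpotent; but `t = a ⊗ a` on `H^j(X) ⊗ H^j(X)` for `j ≤ dim X - c`. So `a` is nilpotent there.
The left ideal of the `w L^c` is generated modulo numerically trivial elements by some `w₀ L^c`;
take `a = 1 - w₀ L^c`. For `e = c + k` one replaces `a ⊗ a` by a combination of the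
`L^i a ⊗ L^(k-i) a` which `(L ⊗ 1 + 1 ⊗ L)^s` maps to a numerically trivial operator.
-/

namespace Pool.Agent.Results.MP_56c18a_ag.SignImpliesLefschetz

open Pool.Agent.Helper29.CPB

universe u v

variable {F : Type u} [Field F]

/-- The class `𝒱` of varieties is stable under generic hyperplane sections of squares: with `X`,
`dim X ≥ 1`, it contains a generic member of `|mL|` on `X × X`. -/
def HyperplaneClosed (𝒱 : Set (Variety.{u, v} F)) : Prop :=
  ∀ X ∈ 𝒱, 1 ≤ X.dim → ∃ (Z : Variety.{u, v} F) (μ : X.H → X.H → Z.H), SelfProduct X Z μ ∧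
    ∃ S ∈ 𝒱, Nonempty (GenericSection Z S 1)

/-- **Sign conjecture and Lefschetz standard conjecture.** (1) If `C⁺` holds for one variety, a
generic complete intersection `S` of codimension `2c - 1` in `X × X`, then for all `e ≥ c` the
operator `L^e` has an algebraic left inverse on all `H^j(X)` with `j ≤ dim X - e`. (2) For every
single `X` of positive dimension: `B(X)` holds if and only if `C⁺` holds for one variety, a generic
hyperplane section of `X × X`. (3) For a class of varieties stable under generic hyperplane sections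
of squares the following are equivalent: `C⁺` for the members of odd dimension; `C⁺`, `C`, `B` for
all members. -/
theorem result [CharZero F] :
    (∀ (X Z S : Variety.{u, v} F) (μ : X.H → X.H → Z.H) (c : ℕ), SelfProduct X Z μ → 1 ≤ c →
      c ≤ X.dim → GenericSection Z S (2 * c - 1) → S.CPlus → ∀ e, c ≤ e → X.LeftInverse e) ∧
    (∀ (X Z S : Variety.{u, v} F) (μ : X.H → X.H → Z.H), SelfProduct X Z μ → 1 ≤ X.dim →
      GenericSection Z S 1 → (X.Lefschetz ↔ S.CPlus)) ∧
    (∀ 𝒱 : Set (Variety.{u, v} F), HyperplaneClosed 𝒱 →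
      [∀ X ∈ 𝒱, Odd X.dim → X.CPlus, ∀ X ∈ 𝒱, X.CPlus, ∀ X ∈ 𝒱, X.Kunneth,
        ∀ X ∈ 𝒱, X.Lefschetz].TFAE) := by
  have local_form : ∀ (X Z S : Variety.{u, v} F) (μ : X.H → X.H → Z.H) (c : ℕ),
      SelfProduct X Z μ → 1 ≤ c → c ≤ X.dim → GenericSection Z S (2 * c - 1) → S.CPlus →
      ∀ e, c ≤ e → X.LeftInverse e := by
    intro X Z S μ c hsp hc hcn G h e he
    obtain ⟨τ, hsq⟩ := hsp.isSquare
    obtain ⟨w, hw, hinv⟩ := inverses_of_cplus hsq c hc hcn G h e he
    exact ⟨w, hw, hinv⟩
  have all : ∀ X : Variety.{u, v} F, (∀ c, 1 ≤ c → X.LeftInverse c) → X.Lefschetz := by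
    intro X h
    apply lefschetz_of_inverse
    intro c hc hcn
    obtain ⟨w, hw, hinv⟩ := h c hc
    exact ⟨w, hw, hinv⟩
  have one : ∀ (X Z S : Variety.{u, v} F) (μ : X.H → X.H → Z.H), SelfProduct X Z μ → 1 ≤ X.dim →
      GenericSection Z S 1 → (X.Lefschetz ↔ S.CPlus) := by
    intro X Z S μ hsp hX G
    constructor
    · intro h
      obtain ⟨τ, hsq⟩ := hsp.isSquare
      have h1 := G.dim
      have h2 := hsp.dim
      exact cplus_of_lefschetz hsq G ⟨X.dim - 1, by omega⟩ h
    · intro h
      exact all X (fun e he => local_form X Z S μ 1 hsp le_rfl hX G h e he)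
  refine ⟨local_form, one, ?_⟩
  intro 𝒱 hV
  tfae_have 1 → 4 := by
    intro h X hX
    rcases Nat.eq_zero_or_pos X.dim with h0 | hpos
    · apply lefschetz_of_inverse
      intro c hc hcn
      omega
    · obtain ⟨Z, μ, hsp, S, hSV, ⟨G⟩⟩ := hV X hX hpos
      have h1 := G.dim
      have h2 := hsp.dim
      exact (one X Z S μ hsp hpos G).mpr (h S hSV ⟨X.dim - 1, by omega⟩)
  tfae_have 4 → 3 := fun h X hX => kunneth_of_lefschetz X (h X hX)
  tfae_have 3 → 2 := fun h X hX => cplus_of_kunneth X (h X hX)
  tfae_have 2 → 1 := fun h X hX _ => h X hX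
  tfae_finish

end Pool.Agent.Results.MP_56c18a_ag.SignImpliesLefschetz
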